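import Mathlib
import Pool.Agent.E9helper80.TD.Final3
import Pool.Agent.E9helper80.TD.EXT
import Pool.Agent.E9helper80.TD.EXT3
import Pool.Agent.E9helper80.TD.PAI
import Pool.Agent.E9helper80.TD.TRI
import Pool.Agent.E9helper80.TD.ERC
import Pool.Agent.E9helper80.TD.XRC
import Pool.Agent.E9helper80.TD.KER
import Pool.Agent.E9helper80.TD.CNV
import Pool.Agent.E9helper80.TD.INV
import Pool.Agent.E9helper80.TD.OPE
import Pool.Agent.E9helper80.TD.OPX
import Pool.Agent.E9helper80.TD.FLP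
import Pool.Agent.E9helper80.TD.ITR
import Pool.Agent.E9helper80.TD.ROOT
import Pool.Agent.E9helper80.TD.KFO
import Pool.Agent.E9helper80.TD.FAM
import Pool.Agent.E9helper80.TD.NCO
import Pool.Agent.E9helper80.TD.PTC98
import Pool.Agent.E9helper80.TD.CXC

/-!
# Complex zeros of the chromatic polynomials of planar triangulations
-/

namespace Pool.Agent.Results.MP_0d034c_co.ComplexZerosDense

open Polynomial

/-- The planar triangulations with the vertices `0, …, n - 1`, the adjacency relation `G` and the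
set `F` of faces: those obtained from `K₄` by inserting vertices into faces (a new vertex `n` joined
to the vertices `a, b, c` of a face) and by flipping edges (an edge `a b` with the two faces `a b c`,
`a b d` is replaced by the edge `c d` if `c`, `d` are not adjacent).  By a theorem of Wagner (1936)
all simple triangulations of the sphere with at least four vertices are obtained in this way. -/
inductive Triangulation : ℕ → (ℕ → ℕ → Prop) → Set (Finset ℕ) → Prop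
  | tetrahedron : Triangulation 4 (fun x y => x < 4 ∧ y < 4 ∧ x ≠ y)
      {f | f ⊆ Finset.range 4 ∧ f.card = 3}
  | insert {n : ℕ} {G : ℕ → ℕ → Prop} {F : Set (Finset ℕ)} (a b c : ℕ)
      (h : Triangulation n G F) (hab : a ≠ b) (hac : a ≠ c) (hbc : b ≠ c) (hf : {a, b, c} ∈ F) :
      Triangulation (n + 1)
        (fun x y => G x y ∨ (x = n ∧ (y = a ∨ y = b ∨ y = c)) ∨ (y = n ∧ (x = a ∨ x = b ∨ x = c)))
        {f | (f ∈ F ∧ f ≠ {a, b, c}) ∨ f = {a, b, n} ∨ f = {b, c, n} ∨ f = {a, c, n}}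
  | flip {n : ℕ} {G : ℕ → ℕ → Prop} {F : Set (Finset ℕ)} (a b c d : ℕ)
      (h : Triangulation n G F) (hab : a ≠ b) (hac : a ≠ c) (had : a ≠ d) (hbc : b ≠ c)
      (hbd : b ≠ d) (hcd : c ≠ d) (hf : {a, b, c} ∈ F) (hg : {a, b, d} ∈ F)
      (honly : ∀ f ∈ F, a ∈ f → b ∈ f → f = {a, b, c} ∨ f = {a, b, d}) (hG : ¬ G c d) :
      Triangulation n
        (fun x y => (G x y ∧ ¬(x = a ∧ y = b) ∧ ¬(x = b ∧ y = a)) ∨ (x = c ∧ y = d) ∨
          (x = d ∧ y = c))
        {f | (f ∈ F ∧ f ≠ {a, b, c} ∧ f ≠ {a, b, d}) ∨ f = {a, c, d} ∨ f = {b, c, d}}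

/-- `p` is the chromatic polynomial of a planar triangulation. -/
def IsChromaticOfTriangulation (p : ℝ[X]) : Prop :=
  ∃ (n : ℕ) (G : ℕ → ℕ → Prop) (F : Set (Finset ℕ)), Triangulation n G F ∧
    ∀ k : ℕ, p.eval (k : ℝ) =
      (Nat.card {c : Fin n → Fin k // ∀ x y : Fin n, G x y → c x ≠ c y} : ℝ)

/-- The complex zeros of the chromatic polynomials of planar triangulations. -/
def Zeros : Set ℂ := {z | ∃ p : ℝ[X], IsChromaticOfTriangulation p ∧ aeval z p = 0}

/-- The region (with `L z = z³ - 9z² + 29z - 32 = (z-3)³ + 2(z-3) + 1`). -/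
def Region : Set ℂ :=
  {z | 5 / 2 < z.re ∧ 1 < ‖z - 3‖ ∧ 2 * ‖z - 3‖ < ‖z ^ 3 - 9 * z ^ 2 + 29 * z - 32‖ ∧
    ‖z - 2‖ * ‖z - 3‖ ^ 2 < ‖z ^ 3 - 9 * z ^ 2 + 29 * z - 32‖}

theorem ofTri {n : ℕ} {G : ℕ → ℕ → Prop} {F : Set (Finset ℕ)}
    (h : Pool.Agent.E9helper80.TD.Tri n G F) : Triangulation n G F := by
  induction h with
  | base => exact Triangulation.tetrahedron
  | ins a b c h hab hac hbc hf ih => exact Triangulation.insert a b c ih hab hac hbc hf
  | flip a b c d h hab hac had hbc hbd hcd hf hg honly hG ih =>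
    exact Triangulation.flip a b c d ih hab hac had hbc hbd hcd hf hg honly hG

theorem isOpen_region : IsOpen Region := by
  have e : Region = {z : ℂ | 5 / 2 < z.re} ∩ ({z : ℂ | 1 < ‖z - 3‖} ∩
      ({z : ℂ | 2 * ‖z - 3‖ < ‖z ^ 3 - 9 * z ^ 2 + 29 * z - 32‖} ∩
        {z : ℂ | ‖z - 2‖ * ‖z - 3‖ ^ 2 < ‖z ^ 3 - 9 * z ^ 2 + 29 * z - 32‖})) := by
    ext z
    simp [Region]
  rw [e]
  refine (isOpen_lt (by fun_prop) (by fun_prop)).inter ((isOpen_lt (by fun_prop) (by fun_prop)).inter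
    ((isOpen_lt (by fun_prop) (by fun_prop)).inter (isOpen_lt (by fun_prop) (by fun_prop))))

theorem mem_region {x : ℝ} (h4 : 4 < x) (h5 : x < 4 + √2) : (x : ℂ) ∈ Region := by
  have hs : √2 ^ 2 = 2 := Real.sq_sqrt (by norm_num)
  have hs0 : 0 ≤ √2 := Real.sqrt_nonneg 2
  have e3 : ((x : ℂ) - 3) = ((x - 3 : ℝ) : ℂ) := by push_cast; ring
  have e2 : ((x : ℂ) - 2) = ((x - 2 : ℝ) : ℂ) := by push_cast; ring
  have eL : ((x : ℂ) ^ 3 - 9 * (x : ℂ) ^ 2 + 29 * x - 32) =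
      ((x ^ 3 - 9 * x ^ 2 + 29 * x - 32 : ℝ) : ℂ) := by push_cast; ring
  have hy : (0 : ℝ) < x - 4 := by linarith
  have hL : 0 < x ^ 3 - 9 * x ^ 2 + 29 * x - 32 := by
    have : x ^ 3 - 9 * x ^ 2 + 29 * x - 32 = (x - 4) ^ 3 + 3 * (x - 4) ^ 2 + 5 * (x - 4) + 4 := by ring
    rw [this]
    positivity
  refine ⟨?_, ?_, ?_, ?_⟩
  · rw [Complex.ofReal_re]
    linarith
  · rw [e3, Complex.norm_real, Real.norm_eq_abs, abs_of_pos (by linarith)]
    linarith
  · rw [e3, eL, Complex.norm_real, Complex.norm_real, Real.norm_eq_abs, Real.norm_eq_abs,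
      abs_of_pos (by linarith), abs_of_pos hL]
    have : x ^ 3 - 9 * x ^ 2 + 29 * x - 32 - 2 * (x - 3) =
      (x - 4) ^ 3 + 3 * (x - 4) ^ 2 + 3 * (x - 4) + 2 := by ring
    have h2 : 0 < (x - 4) ^ 3 + 3 * (x - 4) ^ 2 + 3 * (x - 4) + 2 := by positivity
    linarith
  · rw [e3, e2, eL, Complex.norm_real, Complex.norm_real, Complex.norm_real, Real.norm_eq_abs,
      Real.norm_eq_abs, Real.norm_eq_abs, abs_of_pos (by linarith : (0 : ℝ) < x - 3),
      abs_of_pos (by linarith : (0 : ℝ) < x - 2), abs_of_pos hL]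
    have : x ^ 3 - 9 * x ^ 2 + 29 * x - 32 - (x - 2) * (x - 3) ^ 2 = 2 - (x - 4) ^ 2 := by ring
    nlinarith

theorem main : Region ⊆ closure Zeros := by
  intro z hz
  rw [Metric.mem_closure_iff]
  intro ε hε
  have hz' : z ∈ Pool.Agent.E9helper80.TD.UU := by
    obtain ⟨h1, h2, h3, h4⟩ := hz
    refine ⟨h1, h2, ?_, ?_⟩
    · rw [norm_mul, Complex.norm_ofNat]
      exact h3
    · rw [norm_mul, norm_pow]
      exact h4
  obtain ⟨w, hw, n, G, F, p, hT, hp, h0⟩ :=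
    Pool.Agent.E9helper80.TD.main3 Pool.Agent.E9helper80.TD.s_ext Pool.Agent.E9helper80.TD.s_ext3
      (Pool.Agent.E9helper80.TD.s_tri Pool.Agent.E9helper80.TD.s_pai) Pool.Agent.E9helper80.TD.s_erc
      Pool.Agent.E9helper80.TD.s_xrc Pool.Agent.E9helper80.TD.s_ker
      Pool.Agent.E9helper80.TD.s_cnv Pool.Agent.E9helper80.TD.s_inv Pool.Agent.E9helper80.TD.s_ope
      Pool.Agent.E9helper80.TD.s_opx Pool.Agent.E9helper80.TD.s_itr Pool.Agent.E9helper80.TD.s_flp
      Pool.Agent.E9helper80.TD.s_root Pool.Agent.E9helper80.TD.s_kfo Pool.Agent.E9helper80.TD.s_fam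
      Pool.Agent.E9helper80.TD.s_nco Pool.Agent.E9helper80.TD.s_ptc98 Pool.Agent.E9helper80.TD.s_cxc
      z hz' ε hε
  refine ⟨w, ⟨p, ⟨n, G, F, ofTri hT, hp⟩, h0⟩, ?_⟩
  rw [dist_comm, dist_eq_norm]
  exact hw

/-- The complex zeros of the chromatic polynomials of planar triangulations are dense in the open set
`Region`, which contains the real interval `(4, 4 + √2)`; in particular every real `x` with
`4 ≤ x ≤ 4 + √2` is a limit of such zeros. -/
theorem result : IsOpen Region ∧ Region ⊆ closure Zeros ∧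
    (∀ x : ℝ, 4 < x → x < 4 + √2 → (x : ℂ) ∈ Region) ∧
    ∀ x : ℝ, 4 ≤ x → x ≤ 4 + √2 → (x : ℂ) ∈ closure Zeros := by
  refine ⟨isOpen_region, main, fun x => mem_region, ?_⟩
  intro x h4 h5
  have h2 : (0 : ℝ) < √2 := by positivity
  have h1 : x ∈ closure (Set.Ioo (4 : ℝ) (4 + √2)) := by
    rw [closure_Ioo (by linarith)]
    exact ⟨h4, h5⟩
  have h3 : Set.MapsTo (fun y : ℝ => (y : ℂ)) (Set.Ioo (4 : ℝ) (4 + √2)) (closure Zeros) :=
    fun y hy => main (mem_region hy.1 hy.2)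
  have h6 := map_mem_closure Complex.continuous_ofReal h1 h3
  rwa [closure_closure] at h6

end Pool.Agent.Results.MP_0d034c_co.ComplexZerosDense
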