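import Pool.Agent.TR80.Fin

/-!
# Totally real chromatic roots of planar graphs

The Birkhoff-Lewis conjecture states that a planar graph has no real chromatic root `q ≥ 4`.  For
every planar graph and every totally real algebraic number `q > 4` outside a list of ten numbers, `q`
is not a chromatic root.

Proof. A chromatic root is an algebraic integer, and all its conjugates are chromatic roots of the same
graph.  No graph has a chromatic root in `(-∞, 0)`, `(0, 1)`, `(1, 32/27)` (Jackson), no planar graph has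
one in `[5, ∞)` (Birkhoff-Lewis).  If all conjugates of `q` are real then all conjugates of `q - 3` lie
in `(-2, 2)`, so that `q - 3 = 2 cos (2πk/n)` with `k` prime to `n` by Kronecker's theorem, and the numbers
`3 + 2 cos (2πj/n)`, `j` prime to `n`, are the conjugates of `q`; for `n` outside a list of twelve numbers
one of them is smaller than `32/27`.  For triangulations (graphs with `3 |V| - 6` edges) there are no
roots in `(1, 2)` either; this is shown here for all edge-maximal graphs without a (weak) `K₅`-minor, by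
an argument with minors.
-/

set_option autoImplicit false

namespace Pool.Agent.Results.MP_0d034c_co.TotallyReal

open Polynomial

/-- `G` can be drawn in the plane with non-crossing arcs: vertices are distinct points, every edge
is an arc (an injective continuous curve) joining its two ends and avoiding all vertices in between,
and arcs of different edges do not meet in between. -/
def Planar {V : Type} (G : SimpleGraph V) : Prop :=
  ∃ (f : V → ℝ × ℝ) (γ : V → V → ℝ → ℝ × ℝ),
    Function.Injective f ∧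
    (∀ u v : V, G.Adj u v →
      ContinuousOn (γ u v) (Set.Icc (0:ℝ) 1) ∧ Set.InjOn (γ u v) (Set.Icc (0:ℝ) 1) ∧
      γ u v 0 = f u ∧ γ u v 1 = f v ∧
      ∀ t ∈ Set.Ioo (0:ℝ) 1, ∀ w : V, γ u v t ≠ f w) ∧
    (∀ u v u' v' : V, G.Adj u v → G.Adj u' v' → s(u, v) ≠ s(u', v') →
      ∀ t ∈ Set.Ioo (0:ℝ) 1, ∀ t' ∈ Set.Ioo (0:ℝ) 1, γ u v t ≠ γ u' v' t')

/-- `q` is algebraic and all its conjugates (the complex roots of its minimal polynomial over the
rational numbers) are real.  (If `q` is transcendental then `minpoly ℚ q = 0`, and the condition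
fails.)  For example all real numbers in abelian extensions of `ℚ` are totally real. -/
def IsTotallyReal (q : ℝ) : Prop := ∀ z : ℂ, aeval z (minpoly ℚ q) = 0 → z.im = 0

/-- Let `G` be a planar graph and `p` its chromatic polynomial.
(1) If `q > 4` is totally real and `p(q) = 0` then `q = 3 + 2 cos (2πa/b)` where `a/b` is one of the ten
fractions `1/7, 1/8, 1/10, 1/12, 1/14, 1/18, 1/22, 3/22, 1/26, 3/26`.
(2) If `q` is real and `p(q) = 0` then `q` is an algebraic integer, and all real conjugates `z` of `q` over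
`ℚ` satisfy `z = 0` or `z = 1` or `32/27 ≤ z < 5`.
(3) If `q` is totally real and `p(q) = 0` then `q = 0` or `q = 1` or `q = 3 + 2 cos (2πk/n)` with `k` prime
to `n` and `n` one of the twelve numbers `3, 4, 5, 6, 7, 8, 10, 12, 14, 18, 22, 26`.
(4) If `G` is a triangulation (at least three vertices and `3 |V| - 6` edges), `q` is totally real and
`p(q) = 0`, then `q` is one of `0, 1, 2, 3, 4, (7 + √5)/2, (7 - √5)/2`. -/
theorem result (V : Type) [Finite V] (G : SimpleGraph V) (hG : Planar G) (p : ℝ[X])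
    (hp : ∀ k : ℕ, p.eval (k : ℝ) = (Nat.card (G.Coloring (Fin k)) : ℝ)) :
    (∀ q : ℝ, 4 < q → IsTotallyReal q → p.eval q = 0 →
      ∃ ab ∈ ({(1, 7), (1, 8), (1, 10), (1, 12), (1, 14), (1, 18), (1, 22), (3, 22), (1, 26),
        (3, 26)} : Set (ℕ × ℕ)), q = 3 + 2 * Real.cos (2 * Real.pi * (ab.1 : ℝ) / (ab.2 : ℝ))) ∧
    (∀ q : ℝ, p.eval q = 0 → IsIntegral ℤ q ∧
      ∀ z : ℝ, aeval z (minpoly ℚ q) = 0 → z = 0 ∨ z = 1 ∨ (32 / 27 ≤ z ∧ z < 5)) ∧
    (∀ q : ℝ, IsTotallyReal q → p.eval q = 0 → q = 0 ∨ q = 1 ∨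
      ∃ n ∈ ({3, 4, 5, 6, 7, 8, 10, 12, 14, 18, 22, 26} : Set ℕ), ∃ k : ℕ, k.Coprime n ∧
        q = 3 + 2 * Real.cos (2 * Real.pi * k / n)) ∧
    (3 ≤ Nat.card V → G.edgeSet.ncard + 6 = 3 * Nat.card V →
      ∀ q : ℝ, IsTotallyReal q → p.eval q = 0 →
        q ∈ ({0, 1, 2, 3, 4, (7 + √5) / 2, (7 - √5) / 2} : Set ℝ)) := by
  obtain ⟨f, γ, h1, h2, h3⟩ := hG
  have hW := Pool.Agent.Y865.RF.pl V G f γ ⟨h1, h2, h3⟩
  have : Fintype V := Fintype.ofFinite V
  have hpc : p = Pool.Agent.H207R2.BL.chr G := Pool.Agent.H207R2.BL.eq_chr hp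
  subst hpc
  refine ⟨?_, ?_, ?_, ?_⟩
  · intro q h4 hr hq
    obtain ⟨ab, hab, he⟩ := ((Pool.Agent.TR80.fin G hW q hq).2 hr).2.1 h4
    refine ⟨ab, ?_, he⟩
    simpa [Pool.Agent.TR80.P10] using hab
  · intro q hq
    exact (Pool.Agent.TR80.fin G hW q hq).1
  · intro q hr hq
    rcases ((Pool.Agent.TR80.fin G hW q hq).2 hr).1 with h | h | ⟨n, hn, h⟩
    · exact Or.inl h
    · exact Or.inr (Or.inl h)
    · refine Or.inr (Or.inr ⟨n, ?_, h⟩)
      simpa [Pool.Agent.TR80.N12] using hn
  · intro hV hE q hr hq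
    rw [Nat.card_eq_fintype_card] at hV hE
    rcases ((Pool.Agent.TR80.fin G hW q hq).2 hr).2.2 hV hE with h | h | h
    · exact Or.inl h
    · exact Or.inr (Or.inl h)
    · exact Or.inr (Or.inr h)

end Pool.Agent.Results.MP_0d034c_co.TotallyReal
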