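import Mathlib
import Pool.Agent.E9helper80.TD.Final
import Pool.Agent.E9helper80.TD.EXT
import Pool.Agent.E9helper80.TD.EXT3
import Pool.Agent.E9helper80.TD.PAI
import Pool.Agent.E9helper80.TD.TRI
import Pool.Agent.E9helper80.TD.ERC
import Pool.Agent.E9helper80.TD.XRC
import Pool.Agent.E9helper80.TD.INC
import Pool.Agent.E9helper80.TD.KER
import Pool.Agent.E9helper80.TD.CNV
import Pool.Agent.E9helper80.TD.INV
import Pool.Agent.E9helper80.TD.OPE
import Pool.Agent.E9helper80.TD.OPX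
import Pool.Agent.E9helper80.TD.FLP
import Pool.Agent.E9helper80.TD.SGN
import Pool.Agent.E9helper80.TD.ITR
import Pool.Agent.E9helper80.TD.MON
import Pool.Agent.E9helper80.TD.CHO
import Pool.Agent.E9helper80.TD.SIG
import Pool.Agent.E9helper80.TD.FIN

/-!
# A zero-one law for the Birkhoff-Lewis conjecture on planar triangulations
-/

namespace Pool.Agent.Results.MP_0d034c_co.ZeroOneLaw

open Polynomial

/-- The planar triangulations with the vertices `0, …, n - 1`, the adjacency relation `G` and the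
set `F` of faces: those obtained from `K₄` by inserting vertices into faces (a new vertex `n` joined
to the vertices `a, b, c` of a face) and by flipping edges (an edge `a b` with the two faces `a b c`,
`a b d` is replaced by the edge `c d` if `c`, `d` are not adjacent).  By a theorem of Wagner (1936)
all simple triangulations of the sphere with at least four vertices are obtained in this way. -/
inductive Triangulation : ℕ → (ℕ → ℕ → Prop) → Set (Finset ℕ) → Prop
  | tetrahedron : Triangulation 4 (fun x y => x < 4 ∧ y < 4 ∧ x ≠ y)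
      {f | f ⊆ Finset.range 4 ∧ f.card = 3}
  | insert {n : ℕ} {G : ℕ → ℕ → Prop} {F : Set (Finset ℕ)} (a b c : ℕ)
      (h : Triangulation n G F) (hab : a ≠ b) (hac : a ≠ c) (hbc : b ≠ c) (hf : {a, b, c} ∈ F) :
      Triangulation (n + 1)
        (fun x y => G x y ∨ (x = n ∧ (y = a ∨ y = b ∨ y = c)) ∨ (y = n ∧ (x = a ∨ x = b ∨ x = c)))
        {f | (f ∈ F ∧ f ≠ {a, b, c}) ∨ f = {a, b, n} ∨ f = {b, c, n} ∨ f = {a, c, n}}
  | flip {n : ℕ} {G : ℕ → ℕ → Prop} {F : Set (Finset ℕ)} (a b c d : ℕ)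
      (h : Triangulation n G F) (hab : a ≠ b) (hac : a ≠ c) (had : a ≠ d) (hbc : b ≠ c)
      (hbd : b ≠ d) (hcd : c ≠ d) (hf : {a, b, c} ∈ F) (hg : {a, b, d} ∈ F)
      (honly : ∀ f ∈ F, a ∈ f → b ∈ f → f = {a, b, c} ∨ f = {a, b, d}) (hG : ¬ G c d) :
      Triangulation n
        (fun x y => (G x y ∧ ¬(x = a ∧ y = b) ∧ ¬(x = b ∧ y = a)) ∨ (x = c ∧ y = d) ∨
          (x = d ∧ y = c))
        {f | (f ∈ F ∧ f ≠ {a, b, c} ∧ f ≠ {a, b, d}) ∨ f = {a, c, d} ∨ f = {b, c, d}}

/-- `p` is the chromatic polynomial of a planar triangulation. -/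
def IsChromaticOfTriangulation (p : ℝ[X]) : Prop :=
  ∃ (n : ℕ) (G : ℕ → ℕ → Prop) (F : Set (Finset ℕ)), Triangulation n G F ∧
    ∀ k : ℕ, p.eval (k : ℝ) =
      (Nat.card {c : Fin n → Fin k // ∀ x y : Fin n, G x y → c x ≠ c y} : ℝ)

theorem toTri {n : ℕ} {G : ℕ → ℕ → Prop} {F : Set (Finset ℕ)} (h : Triangulation n G F) :
    Pool.Agent.E9helper80.TD.Tri n G F := by
  induction h with
  | tetrahedron => exact Pool.Agent.E9helper80.TD.Tri.base
  | insert a b c h hab hac hbc hf ih =>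
    exact Pool.Agent.E9helper80.TD.Tri.ins a b c ih hab hac hbc hf
  | flip a b c d h hab hac had hbc hbd hcd hf hg honly hG ih =>
    exact Pool.Agent.E9helper80.TD.Tri.flip a b c d ih hab hac had hbc hbd hcd hf hg honly hG

theorem ofTri {n : ℕ} {G : ℕ → ℕ → Prop} {F : Set (Finset ℕ)}
    (h : Pool.Agent.E9helper80.TD.Tri n G F) : Triangulation n G F := by
  induction h with
  | base => exact Triangulation.tetrahedron
  | ins a b c h hab hac hbc hf ih => exact Triangulation.insert a b c ih hab hac hbc hf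
  | flip a b c d h hab hac had hbc hbd hcd hf hg honly hG ih =>
    exact Triangulation.flip a b c d ih hab hac had hbc hbd hcd hf hg honly hG

/-- The zeros between `4` and `5` of the chromatic polynomials of planar triangulations. -/
def Zeros : Set ℝ :=
  {x | 4 < x ∧ x < 5 ∧ ∃ p : ℝ[X], IsChromaticOfTriangulation p ∧ p.eval x = 0}

/-- the statement (1) of the theorem, in the form of the pieces -/
def Near : Prop :=
  ∀ q : ℝ, 4 < q → q < 5 →
      (∃ (n : ℕ) (G : ℕ → ℕ → Prop) (F : Set (Finset ℕ)) (p : ℝ[X]),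
        Pool.Agent.E9helper80.TD.Tri n G F ∧
        (∀ k : ℕ, p.eval (k : ℝ) =
          (Nat.card {c : Fin n → Fin k // ∀ x y : Fin n, G x y → c x ≠ c y} : ℝ)) ∧
        p.eval q < 0) →
      ∀ ε : ℝ, 0 < ε → ∃ q' : ℝ, |q' - q| < ε ∧
        ∃ (n : ℕ) (G : ℕ → ℕ → Prop) (F : Set (Finset ℕ)) (p : ℝ[X]),
          Pool.Agent.E9helper80.TD.Tri n G F ∧
          (∀ k : ℕ, p.eval (k : ℝ) =
            (Nat.card {c : Fin n → Fin k // ∀ x y : Fin n, G x y → c x ≠ c y} : ℝ)) ∧
          p.eval q' = 0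

theorem mem_closure (hN : Near) (q : ℝ) (h4 : 4 < q) (h5 : q < 5)
    (h : ∃ p : ℝ[X], IsChromaticOfTriangulation p ∧ p.eval q < 0) : q ∈ closure Zeros := by
  obtain ⟨p, ⟨n, G, F, hT, hp⟩, hneg⟩ := h
  rw [Metric.mem_closure_iff]
  intro ε hε
  have hm : 0 < min ε (min (q - 4) (5 - q)) :=
    lt_min hε (lt_min (by linarith) (by linarith))
  obtain ⟨q', hq', n', G', F', p', hT', hp', hz⟩ :=
    hN q h4 h5 ⟨n, G, F, p, toTri hT, hp, hneg⟩ _ hm
  have h1 := hq'.trans_le (min_le_left _ _)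
  have h2 := (hq'.trans_le (min_le_right _ _)).trans_le (min_le_left _ _)
  have h3 := (hq'.trans_le (min_le_right _ _)).trans_le (min_le_right _ _)
  rw [abs_lt] at h2 h3
  refine ⟨q', ⟨by linarith, by linarith, p', ⟨n', G', F', ofTri hT', hp'⟩, hz⟩, ?_⟩
  rw [dist_comm, Real.dist_eq]
  exact h1

theorem result_of (hN : Near) :
    (∀ q : ℝ, 4 < q → q < 5 → (∃ p : ℝ[X], IsChromaticOfTriangulation p ∧ p.eval q < 0) →
      q ∈ closure Zeros) ∧
    ((∀ p : ℝ[X], IsChromaticOfTriangulation p → ∀ q : ℝ, 4 ≤ q → q ≤ 5 → 0 ≤ p.eval q) ∨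
      ∃ a b : ℝ, 4 < a ∧ a < b ∧ b < 5 ∧ Set.Ioo a b ⊆ closure Zeros) := by
  refine ⟨mem_closure hN, ?_⟩
  by_cases h : ∀ p : ℝ[X], IsChromaticOfTriangulation p → ∀ q : ℝ, 4 ≤ q → q ≤ 5 → 0 ≤ p.eval q
  · exact Or.inl h
  · right
    push Not at h
    obtain ⟨p, hp, q, h4, h5, hneg⟩ := h
    have hc : ContinuousAt (fun x : ℝ => p.eval x) q := p.continuous.continuousAt
    have hev : ∀ᶠ x in nhds q, p.eval x < 0 := hc.eventually (gt_mem_nhds hneg)
    obtain ⟨δ, hδ, hball⟩ := Metric.eventually_nhds_iff.1 hev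
    have hlr : max 4 (q - δ) < min 5 (q + δ) := by
      apply max_lt <;> apply lt_min <;> linarith
    refine ⟨(2 * max 4 (q - δ) + min 5 (q + δ)) / 3, (max 4 (q - δ) + 2 * min 5 (q + δ)) / 3,
      ?_, by linarith, ?_, ?_⟩
    · have := le_max_left 4 (q - δ)
      linarith
    · have := min_le_left 5 (q + δ)
      linarith
    · rintro x ⟨hx1, hx2⟩
      have a1 := le_max_left 4 (q - δ)
      have a2 := le_max_right 4 (q - δ)
      have a3 := min_le_left 5 (q + δ)
      have a4 := min_le_right 5 (q + δ)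
      refine mem_closure hN x (by linarith) (by linarith) ⟨p, hp, hball ?_⟩
      rw [Real.dist_eq, abs_lt]
      constructor <;> linarith

theorem near : Near :=
  Pool.Agent.E9helper80.TD.main Pool.Agent.E9helper80.TD.s_ext Pool.Agent.E9helper80.TD.s_ext3
    (Pool.Agent.E9helper80.TD.s_tri Pool.Agent.E9helper80.TD.s_pai) Pool.Agent.E9helper80.TD.s_erc
    Pool.Agent.E9helper80.TD.s_xrc Pool.Agent.E9helper80.TD.s_inc Pool.Agent.E9helper80.TD.s_ker
    Pool.Agent.E9helper80.TD.s_cnv Pool.Agent.E9helper80.TD.s_inv Pool.Agent.E9helper80.TD.s_ope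
    Pool.Agent.E9helper80.TD.s_opx Pool.Agent.E9helper80.TD.s_flp Pool.Agent.E9helper80.TD.s_sgn
    Pool.Agent.E9helper80.TD.s_itr Pool.Agent.E9helper80.TD.s_mon Pool.Agent.E9helper80.TD.s_cho
    Pool.Agent.E9helper80.TD.s_sig Pool.Agent.E9helper80.TD.s_fin

/-- (1) If the chromatic polynomial of a planar triangulation is negative at a point `4 < q < 5`, then
`q` is in the closure of the set of the zeros (between 4 and 5) of the chromatic polynomials of planar
triangulations. (2) Either all these polynomials are nonnegative on `[4, 5]`, or their zeros are dense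
in an interval. -/
theorem result :
    (∀ q : ℝ, 4 < q → q < 5 → (∃ p : ℝ[X], IsChromaticOfTriangulation p ∧ p.eval q < 0) →
      q ∈ closure Zeros) ∧
    ((∀ p : ℝ[X], IsChromaticOfTriangulation p → ∀ q : ℝ, 4 ≤ q → q ≤ 5 → 0 ≤ p.eval q) ∨
      ∃ a b : ℝ, 4 < a ∧ a < b ∧ b < 5 ∧ Set.Ioo a b ⊆ closure Zeros) :=
  result_of near

end Pool.Agent.Results.MP_0d034c_co.ZeroOneLaw
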